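import Pool.Agent.Y703.CQ.Stm
import Pool.Agent.Y948.CQ.C2A

/-!
Job CQ-C2.
-/

set_option autoImplicit false

namespace Pool.Agent.Y948.CQ

theorem t_C2 : Pool.Agent.Y703.CQ.S_C2 := c2_main _ rfl

end Pool.Agent.Y948.CQ
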